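import Pool.Agent.N198.TE.Main

/-!
The numerical conditions on the degree.
-/

set_option linter.unusedSectionVars false

namespace Pool.Agent.N198.TE

open Finset Pool.Agent.H916R2 Pool.Agent.N992 Pool.Agent.N993 Pool.Agent.H916K Pool.Agent.N997.P

/-- Three different numbers in increasing order. -/
lemma three_sorted {T : Finset ℕ} (h : T.card = 3) : ∃ a b c, a < b ∧ b < c ∧ T = {a, b, c} := by
  obtain ⟨x, y, z, hxy, hxz, hyz, rfl⟩ := card_eq_three.mp h
  rcases lt_or_gt_of_ne hxy with h1 | h1 <;> rcases lt_or_gt_of_ne hxz with h2 | h2 <;>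
    rcases lt_or_gt_of_ne hyz with h3 | h3
  · exact ⟨x, y, z, h1, h3, rfl⟩
  · exact ⟨x, z, y, h2, h3, by ext; simp; tauto⟩
  · omega
  · exact ⟨z, x, y, h2, h1, by ext; simp; tauto⟩
  · exact ⟨y, x, z, h1, h2, by ext; simp; tauto⟩
  · omega
  · exact ⟨y, z, x, h3, h2, by ext; simp; tauto⟩
  · exact ⟨z, y, x, h3, h1, by ext; simp; tauto⟩

lemma prod_three {a b c : ℕ} (h1 : a < b) (h2 : b < c) :
    ∏ p ∈ ({a, b, c} : Finset ℕ), (p - 1) = (a - 1) * ((b - 1) * (c - 1)) := by
  rw [prod_insert, prod_insert, prod_singleton]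
  · rw [mem_singleton]; omega
  · rw [mem_insert, mem_singleton]; omega

lemma prime_gt_seven {c : ℕ} (hc : c.Prime) (h : 7 < c) : 11 ≤ c := by
  by_contra h1
  have : c = 8 ∨ c = 9 ∨ c = 10 := by omega
  rcases this with rfl | rfl | rfl <;> revert hc <;> norm_num

lemma prime_gt_five {c : ℕ} (hc : c.Prime) (h : 5 < c) : 7 ≤ c := by
  by_contra h1
  have : c = 6 := by omega
  subst this
  revert hc; norm_num

lemma prime_gt_three {c : ℕ} (hc : c.Prime) (h : 3 < c) : 5 ≤ c := by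
  by_contra h1
  have : c = 4 := by omega
  subst this
  revert hc; norm_num

/-- Degrees not divisible by 3. -/
lemma three_of_not3 {r m B : ℕ} (h3 : ¬ 3 ∣ m) (hr : r ≤ 14) : ThreeLarge (2 * r) B m := by
  intro T hT hp
  obtain ⟨a, b, c, h1, h2, rfl⟩ := three_sorted hT
  rw [prod_three h1 h2]
  obtain ⟨pa, pa2, pam, _⟩ := hp a (by simp)
  obtain ⟨pb, _, _, _⟩ := hp b (by simp)
  obtain ⟨pc, _, _, _⟩ := hp c (by simp)
  have ha : 5 ≤ a := by
    apply prime_gt_three pa
    have := pa.two_le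
    have h4 : a ≠ 3 := by rintro rfl; exact h3 pam
    omega
  have hb : 7 ≤ b := prime_gt_five pb (by omega)
  have hc : 11 ≤ c := prime_gt_seven pc (by omega)
  have h5 : 4 * (6 * 10) ≤ (a - 1) * ((b - 1) * (c - 1)) :=
    Nat.mul_le_mul (by omega) (Nat.mul_le_mul (by omega) (by omega))
  omega

/-- Degrees not divisible by 15. -/
lemma three_of_not15 {r m B : ℕ} (h15 : ¬ 15 ∣ m) (hr : r ≤ 7) : ThreeLarge (2 * r) B m := by
  by_cases h3 : 3 ∣ m
  · have h5 : ¬ 5 ∣ m := fun h5 => h15 (Nat.Coprime.mul_dvd_of_dvd_of_dvd (by norm_num) h3 h5)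
    intro T hT hp
    obtain ⟨a, b, c, h1, h2, rfl⟩ := three_sorted hT
    rw [prod_three h1 h2]
    obtain ⟨pa, pa2, pam, _⟩ := hp a (by simp)
    obtain ⟨pb, _, pbm, _⟩ := hp b (by simp)
    obtain ⟨pc, _, _, _⟩ := hp c (by simp)
    have ha : 3 ≤ a := by
      have := pa.two_le
      omega
    have hb : 7 ≤ b := by
      have hb5 : 5 ≤ b := prime_gt_three pb (by omega)
      apply prime_gt_five pb
      have h4 : b ≠ 5 := by rintro rfl; exact h5 pbm
      omega
    have hc : 11 ≤ c := prime_gt_seven pc (by omega)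
    have h5 : 2 * (6 * 10) ≤ (a - 1) * ((b - 1) * (c - 1)) :=
      Nat.mul_le_mul (by omega) (Nat.mul_le_mul (by omega) (by omega))
    omega
  · exact three_of_not3 h3 (by omega)

end Pool.Agent.N198.TE
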