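import Pool.Agent.LB.Cond4

/-!
The numerical condition for the classes with at least four elements, degrees divisible by 4.
-/

set_option linter.unusedSectionVars false

namespace Pool.Agent.N198.TE

open Finset Pool.Agent.N993 Pool.Agent.H916R2 Pool.Agent.N992 Pool.Agent.LB

/-- The numerical condition on the sets of at least three odd prime factors. -/
def Cond3 (m r : ℕ) : Prop := ∀ P : Finset ℕ, (∀ p ∈ P, p.Prime ∧ p ≠ 2 ∧ p ∣ m) →
  3 ≤ P.card → r * P.card.factorial < 6 * ∏ p ∈ P, (p - 1) / 2

theorem prb_lt3 {m r : ℕ} (h : Cond3 m r) {T P : Finset ℕ}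
    (hP : ∀ p ∈ P, p.Prime ∧ p ≠ 2 ∧ p ∣ m) (h4 : 4 ≤ T.card) (j : ℕ) :
    r * prb T P j < 2 * hh P := by
  have h4P : 4 ∉ P := fun h4 => absurd (hP 4 h4).1 (by norm_num)
  have c1 := h P hP
  rw [← hh_eq hP] at c1
  have hH : 0 < hh P := by
    rw [hh_eq hP]
    exact prod_pos fun p hp => (half_pos' hP hp).1
  set H := hh P with hHd
  have hsz := sz_le T
  by_cases hT4 : 4 ∈ T
  · have hTP : ¬ T ⊆ P := fun h1 => h4P (h1 hT4)
    have key : T.erase 4 ⊆ P → r * (sz T - 1).ascFactorial (P.card + 1 - T.card) < H ∧
        r * (sz T).ascFactorial (P.card + 1 - T.card) < 2 * H := by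
      intro hS
      have hSc := card_le_card hS
      rw [card_erase_of_mem hT4] at hSc
      have e1 := asc_fac (t := T.card - 1) (p := P.card) (by omega) hSc
      have e2 : P.card - (T.card - 1) = P.card + 1 - T.card := by omega
      have e3 : T.card - 1 - 1 = T.card - 2 := by omega
      rw [e2, e3] at e1
      have e4 := asc_fac (t := T.card) (p := P.card + 1) (by omega) (by omega)
      rw [Nat.add_sub_cancel] at e4
      have m1 := asc_mono (show sz T - 1 ≤ T.card - 1 by omega) (P.card + 1 - T.card)
      have m2 := asc_mono hsz (P.card + 1 - T.card)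
      set G := (T.card - 1).ascFactorial (P.card + 1 - T.card) with hG
      set F := T.card.ascFactorial (P.card + 1 - T.card) with hF
      have e5 : P.card.factorial = P.card * (P.card - 1).factorial := by
        obtain ⟨n, hn⟩ : ∃ n, P.card = n + 1 := ⟨P.card - 1, by omega⟩
        rw [hn, Nat.factorial_succ, Nat.add_sub_cancel]
      have h5 := c1 (by omega)
      constructor
      · refine lt_of_le_of_lt (Nat.mul_le_mul_left r m1) ?_
        have h6 : 2 ≤ (T.card - 2).factorial := by
          have : Nat.factorial 2 ≤ (T.card - 2).factorial := Nat.factorial_le (by omega)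
          simpa [Nat.factorial] using this
        have h7 : 6 ≤ P.card * (T.card - 2).factorial := by
          calc 6 = 3 * 2 := rfl
            _ ≤ _ := Nat.mul_le_mul (by omega) h6
        have h8 : 6 * (r * G) < 6 * H := by
          refine lt_of_le_of_lt ?_ h5
          rw [e5, ← e1]
          calc 6 * (r * G) ≤ (P.card * (T.card - 2).factorial) * (r * G) :=
                Nat.mul_le_mul_right _ h7
            _ = _ := by ring
        omega
      · have h6 : 6 ≤ (T.card - 1).factorial := by
          have : Nat.factorial 3 ≤ (T.card - 1).factorial := Nat.factorial_le (by omega)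
          simpa [Nat.factorial] using this
        have h8 : 6 * (r * F) < 6 * H := by
          refine lt_of_le_of_lt ?_ h5
          rw [← e4]
          calc 6 * (r * F) ≤ (T.card - 1).factorial * (r * F) := Nat.mul_le_mul_right _ h6
            _ = _ := by ring
        have h9 := Nat.mul_le_mul_left r m2
        omega
    unfold prb
    rw [if_neg hTP, if_pos hT4]
    split_ifs with a1 a2 a3 a4 a5
    · omega
    · omega
    · have h5 := (key a4).1
      have h6 : r * (2 * (sz T - 1).ascFactorial (P.card + 1 - T.card)) =
        2 * (r * (sz T - 1).ascFactorial (P.card + 1 - T.card)) := by ring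
      omega
    · omega
    · exact (key a5).2
    · omega
  · have hTe : T.erase 4 = T := erase_eq_of_notMem hT4
    unfold prb
    rw [if_neg hT4, hTe]
    by_cases hTP : T ⊆ P
    · have ht := card_le_card hTP
      have e4 := asc_fac (t := T.card) (p := P.card + 1) (by omega) (by omega)
      rw [Nat.add_sub_cancel] at e4
      have m2 := asc_mono hsz (P.card + 1 - T.card)
      have m3 := asc_mono hsz (P.card - T.card)
      have e6 : P.card + 1 - T.card = (P.card - T.card) + 1 := by omega
      have m4 : 2 * T.card.ascFactorial (P.card - T.card) ≤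
          T.card.ascFactorial (P.card + 1 - T.card) := by
        rw [e6, Nat.ascFactorial_succ]
        exact Nat.mul_le_mul_right _ (by omega)
      set F := T.card.ascFactorial (P.card + 1 - T.card) with hF
      have key : r * F < H := by
        have h5 := c1 (by omega)
        have h6 : 6 ≤ (T.card - 1).factorial := by
          have : Nat.factorial 3 ≤ (T.card - 1).factorial := Nat.factorial_le (by omega)
          simpa [Nat.factorial] using this
        have h8 : 6 * (r * F) < 6 * H := by
          refine lt_of_le_of_lt ?_ h5
          rw [← e4]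
          calc 6 * (r * F) ≤ (T.card - 1).factorial * (r * F) := Nat.mul_le_mul_right _ h6
            _ = _ := by ring
        omega
      have n2 := Nat.mul_le_mul_left r m2
      have n3 := Nat.mul_le_mul_left r m3
      have n4 := Nat.mul_le_mul_left r m4
      have n5 : r * (2 * T.card.ascFactorial (P.card - T.card)) =
        2 * (r * T.card.ascFactorial (P.card - T.card)) := by ring
      have n6 : r * (2 * (sz T).ascFactorial (P.card - T.card)) =
        2 * (r * (sz T).ascFactorial (P.card - T.card)) := by ring
      have n7 : r * (4 * (sz T).ascFactorial (P.card - T.card)) =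
        4 * (r * (sz T).ascFactorial (P.card - T.card)) := by ring
      have n8 : r * (2 * (sz T).ascFactorial (P.card + 1 - T.card)) =
        2 * (r * (sz T).ascFactorial (P.card + 1 - T.card)) := by ring
      rw [if_pos hTP, if_pos hTP, if_pos hTP, if_pos hTP]
      split_ifs
      · omega
      · omega
      · omega
      · omega
    · rw [if_neg hTP, if_neg hTP, if_neg hTP, if_neg hTP]
      split_ifs <;> omega

/-- The largest of `k` odd numbers larger than 1. -/
lemma exists_large (P : Finset ℕ) (hP : ∀ p ∈ P, p % 2 = 1 ∧ 3 ≤ p) (hne : P.Nonempty) :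
    ∃ p ∈ P, P.card ≤ (p - 1) / 2 := by
  refine ⟨P.max' hne, P.max'_mem hne, ?_⟩
  have h1 : (P.image (fun p => (p - 1) / 2)).card = P.card := by
    apply card_image_of_injOn
    intro a ha b hb hab
    have h2 := hP a ha
    have h3 := hP b hb
    change (a - 1) / 2 = (b - 1) / 2 at hab
    omega
  have h2 : P.image (fun p => (p - 1) / 2) ⊆ Icc 1 ((P.max' hne - 1) / 2) := by
    intro x hx
    rw [mem_image] at hx
    obtain ⟨p, hp, rfl⟩ := hx
    rw [mem_Icc]
    have h3 := hP p hp
    have h4 := P.le_max' p hp
    exact ⟨by omega, Nat.div_le_div_right (by omega)⟩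
  have h3 := card_le_card h2
  rw [h1, Nat.card_Icc] at h3
  omega

/-- The condition on the sets with three elements suffices. -/
theorem cond3_of_three {m r : ℕ} (h : ∀ P : Finset ℕ, P.card = 3 →
    (∀ p ∈ P, p.Prime ∧ p ≠ 2 ∧ p ∣ m) → 8 * r < ∏ p ∈ P, (p - 1)) : Cond3 m r := by
  have key : ∀ k (P : Finset ℕ), P.card = k + 3 → (∀ p ∈ P, p.Prime ∧ p ≠ 2 ∧ p ∣ m) →
      r * P.card.factorial < 6 * ∏ p ∈ P, (p - 1) / 2 := by
    intro k
    induction k with
    | zero =>
      intro P hc hP
      have h1 := h P hc hP
      have h2 : ∏ p ∈ P, (p - 1) = ∏ p ∈ P, (2 * ((p - 1) / 2)) := by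
        refine prod_congr rfl fun p hp => ?_
        have h3 := (hP p hp).1.eq_two_or_odd.resolve_left (hP p hp).2.1
        omega
      rw [h2, prod_mul_distrib, prod_const, hc] at h1
      rw [hc]
      have h3 : Nat.factorial 3 = 6 := rfl
      rw [h3]
      omega
    | succ k ih =>
      intro P hc hP
      have hne : P.Nonempty := card_pos.mp (by omega)
      obtain ⟨p, hp, hpl⟩ := exists_large P (fun p hp => by
        have h1 := (hP p hp).1.eq_two_or_odd.resolve_left (hP p hp).2.1
        have h2 := (hP p hp).1.two_le
        exact ⟨h1, by omega⟩) hne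
      have hce : (P.erase p).card = k + 3 := by rw [card_erase_of_mem hp]; omega
      have h1 := ih (P.erase p) hce (fun q hq => hP q (mem_of_mem_erase hq))
      rw [← mul_prod_erase P (fun p => (p - 1) / 2) hp]
      have e1 : P.card.factorial = P.card * (P.erase p).card.factorial := by
        rw [hc, hce, show k + 1 + 3 = (k + 3) + 1 by ring, Nat.factorial_succ]
      rw [e1]
      calc r * (P.card * (P.erase p).card.factorial)
          = P.card * (r * (P.erase p).card.factorial) := by ring
        _ < P.card * (6 * ∏ q ∈ P.erase p, (q - 1) / 2) :=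
            Nat.mul_lt_mul_of_pos_left h1 (card_pos.mpr hne)
        _ ≤ ((p - 1) / 2) * (6 * ∏ q ∈ P.erase p, (q - 1) / 2) := Nat.mul_le_mul_right _ hpl
        _ = _ := by ring
  intro P hP h3
  exact key (P.card - 3) P (by omega) hP

end Pool.Agent.N198.TE
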