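import Pool.Agent.LB.EvMain
import Pool.Agent.LB.W4
import Pool.Agent.N198.TB.Final
import Pool.Agent.N198.TE.Num

/-!
Rational classes with few entries, degrees divisible by 8.
-/

set_option linter.unusedSectionVars false

namespace Pool.Agent.N198.TE

open Finset Pool.Agent.N993 Pool.Agent.H916R2 Pool.Agent.N992 Pool.Agent.LB Pool.Agent.N998
  Pool.Agent.H916K

section

variable {m : ℕ} [NeZero m] {S : Finset ℕ} [hnz : ∀ i : Ix S, NeZero (nn S i)]
  {k0 m0 : ℕ} [NeZero m0]

lemma opf_prop' {d : ℕ} (hd : d ∣ m) : ∀ p ∈ opf d, p.Prime ∧ p ≠ 2 ∧ p ∣ m := by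
  intro p hp
  unfold opf at hp
  rw [mem_erase] at hp
  exact ⟨Nat.prime_of_mem_primeFactors hp.2, hp.1, (Nat.dvd_of_mem_primeFactors hp.2).trans hd⟩

/-- the avoidance statement for sets with at least four elements -/
theorem ex_three (h8 : 8 ∣ m) (hS : S = insert 4 (m.primeFactors.erase 2))
    (hm0 : ∏ i, nn S i = m0) (hk : k0 * m0 = m) (E : (∀ i, ZMod (nn S i)) ≃+* ZMod m0)
    {r : ℕ} (hr : Cond3 m r) {s : Multiset (ZMod m)} (hs : Multiset.card s ≤ r)
    {T : Finset (Ix S)} (hT : 4 ≤ T.card) :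
    Ex m S k0 E s T := by
  classical
  have hne : T.Nonempty := card_pos.mp (by omega)
  obtain ⟨γ, hγ, hγn, F, hF1, hF2, hF3⟩ := exists_fam h8 hS hm0 hk E hne
  have hC : 0 < Fintype.card γ := Fintype.card_pos
  obtain ⟨g, hg⟩ : ∃ g, ∀ a ∈ s, F g a = 0 := by
    apply fam_avoid
    have h1 : ∀ a ∈ s, r * LB.bd F a + 1 ≤ Fintype.card γ := by
      intro a _
      have h2 := prb_lt3 hr (T := nat' T) (opf_prop' (order_dvd a)) (by rw [nat'_card]; exact hT)
        (lev2 (addOrderOf a))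
      have h3 := bd_lt (F := F) (a := a) (c := r) (w := 1) (hF3 a) (by rw [one_mul]; exact h2) hC
      omega
    have h2 : (s.map (fun a => r * LB.bd F a + 1)).sum ≤ Multiset.card s * Fintype.card γ := by
      calc (s.map (fun a => r * LB.bd F a + 1)).sum ≤ (s.map (fun _ => Fintype.card γ)).sum :=
            Multiset.sum_map_le_sum_map _ _ h1
        _ = _ := by rw [Multiset.map_const', Multiset.sum_replicate, smul_eq_mul]
    rw [Multiset.sum_map_add, Multiset.sum_map_mul_left, Multiset.map_const', Multiset.sum_replicate,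
      smul_eq_mul, mul_one] at h2
    by_cases h6 : Multiset.card s = 0
    · rw [Multiset.card_eq_zero] at h6
      rw [h6, Multiset.map_zero, Multiset.sum_zero]
      exact hC
    · by_contra h7
      push Not at h7
      have h8' : r * Fintype.card γ ≤ r * (s.map (LB.bd F)).sum := Nat.mul_le_mul_left _ h7
      have h9 : Multiset.card s * Fintype.card γ ≤ r * Fintype.card γ := Nat.mul_le_mul_right _ hs
      omega
  exact ⟨F g, hF1 g, hF2 g, sum_zero_of_avoid hg⟩

end

/-- **Relations with few entries and even parities are killed by the modular characters**: degrees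
divisible by 8. -/
theorem kill_even {m : ℕ} [NeZero m] (h8 : 8 ∣ m) {C : ℕ}
    (hC : (C ≤ 8 ∧ ∀ p, p.Prime → p ∣ m → p ≤ 31) ∨ Cond3 m C) :
    ∃ L : ℕ, L ≠ 0 ∧ ∀ s : Multiset (ZMod m), Multiset.card s ≤ C →
      Rel (fun a : ZMod m => ((s.count a : ℕ) : ℤ)) →
      (∀ p : ℕ, p.Prime → p ∣ m → p % 4 = 1 → (s.map (Pool.Agent.N198.TP.pr p m)).sum = 0) →
      ∀ (κ N : ℕ) [NeZero N], κ * (L * m) = N →
      ∀ (Q : Type) [AddCommGroup Q] (c : ZMod N → Q), OddDist c →
      (∀ s, ModularCharacter N s → (s.map c).sum = 0) →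
      (s.map (fun a => c (iota (κ * L) a))).sum = 0 := by
  classical
  have hm : m ≠ 0 := NeZero.ne m
  obtain ⟨S, hS⟩ : ∃ S : Finset ℕ, S = insert 4 (m.primeFactors.erase 2) := ⟨_, rfl⟩
  have hmem : ∀ x ∈ S, x ≠ 4 → x.Prime ∧ x % 2 = 1 ∧ x ∣ m := by
    intro x hx hi
    rw [hS, mem_insert] at hx
    have h2 := hx.resolve_left hi
    rw [mem_erase] at h2
    have h3 := Nat.prime_of_mem_primeFactors h2.2
    exact ⟨h3, (h3.eq_two_or_odd).resolve_left h2.1, Nat.dvd_of_mem_primeFactors h2.2⟩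
  have hSx : ∀ x ∈ S, (x.Prime ∧ x % 2 = 1) ∨ x = 4 := by
    intro x hx
    by_cases h : x = 4
    · exact Or.inr h
    · exact Or.inl ⟨(hmem x hx h).1, (hmem x hx h).2.1⟩
  have hnz : ∀ i : Ix S, NeZero (nn S i) := fun i =>
    ⟨by have := one_lt_of (hSx i i.2); change (i : ℕ) ≠ 0; omega⟩
  have hn' : Adm' (nn S) := fun i => hSx i i.2
  have hco : Pairwise (fun i j : Ix S => (nn S i).Coprime (nn S j)) := fun i j hij =>
    coprime_of (hSx i i.2) (hSx j j.2) (fun h => hij (Subtype.ext h))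
  obtain ⟨m0, hm0⟩ : ∃ m0, ∏ i : Ix S, nn S i = m0 := ⟨_, rfl⟩
  have hm00 : m0 ≠ 0 := by
    rw [← hm0]; exact prod_ne_zero_iff.mpr fun i _ => (hnz i).out
  have hNZ0 : NeZero m0 := ⟨hm00⟩
  have hm0S : m0 = ∏ x ∈ S, x := by
    rw [← hm0]
    exact Finset.prod_coe_sort S (fun x => x)
  have hdvd : m0 ∣ m := by
    rw [hm0S]
    apply Finset.prod_dvd_of_isRelPrime
    · intro a ha b hb hab
      exact Nat.coprime_iff_isRelPrime.mp (coprime_of (hSx a ha) (hSx b hb) hab)
    · intro x hx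
      by_cases h : x = 4
      · rw [h]; exact dvd_trans (by norm_num) h8
      · exact (hmem x hx h).2.2
  obtain ⟨k0, hk0⟩ := hdvd
  have hk : k0 * m0 = m := (mul_comm _ _).trans hk0.symm
  have h4m0 : 4 ∣ m0 := by
    rw [hm0S]
    exact dvd_prod_of_mem (fun x => x) (by rw [hS]; exact mem_insert_self _ _)
  have hpm : ∀ p, p.Prime → p ∣ m → p ∣ m0 := by
    intro p hp hpm
    by_cases h2 : p = 2
    · rw [h2]; exact dvd_trans (by norm_num) h4m0
    · rw [hm0S]
      exact dvd_prod_of_mem (fun x => x) (by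
        rw [hS]
        exact mem_insert_of_mem (mem_erase.mpr ⟨h2, Nat.mem_primeFactors.mpr ⟨hp, hpm, hm⟩⟩))
  have hred : Red m m0 k0 := red_exists _ m m0 k0 rfl hk hpm (fun _ => h4m0)
  let E : (∀ i, ZMod (nn S i)) ≃+* ZMod m0 := by
    subst hm0
    exact (ZMod.prodEquivPi (nn S) hco).symm
  -- the primes congruent to 1 modulo 4
  set P : Finset ℕ := S.filter (fun p => p.Prime ∧ p % 4 = 1) with hPdef
  have hPp : ∀ p ∈ P, p.Prime ∧ p % 4 = 1 := fun p hp => (mem_filter.mp hp).2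
  have hPm : ∀ p ∈ P, p ∣ m := by
    intro p hp
    have h1 := mem_filter.mp hp
    refine (hmem p h1.1 ?_).2.2
    rintro rfl
    exact absurd h1.2.1 (by norm_num)
  obtain ⟨A, hA, hns⟩ := Pool.Agent.N198.TP.exists_choice P hPp
  have hadm : Pool.Agent.N198.TP.Adm P S := ⟨hSx, fun p hp hpp hp4 =>
    mem_filter.mpr ⟨hp, hpp, hp4⟩⟩
  have hG : ∀ T ∈ S.powersetCard 2, Pool.Agent.N198.TP.Good P A T := by
    intro T hT
    rw [mem_powersetCard] at hT
    obtain ⟨x, y, hxy, rfl⟩ := card_eq_two.mp hT.2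
    exact Pool.Agent.N198.TP.good_pair hA hxy (hadm.mono hT.1)
  choose lT hlT0 hlT using hG
  obtain ⟨L, hL0, hL⟩ := Pool.Agent.N198.TB.exists_mult _ lT hlT0
  refine ⟨L, hL0, ?_⟩
  intro s hcard hs hpar κ N _ hN Q _ c hc hmod
  -- the constants
  have hτ : ∀ p, ∃ τ : ZMod 2 →+ Q, p ∈ P → ∀ (m0 k' : ℕ) [NeZero m0], p * A p = m0 →
      k' * m0 = N → ∀ y : ZMod m0 → ℤ, H916R2.Rel y →
      ∑ b, y b • c (iota k' b) = τ (∑ b, y b • Pool.Agent.N198.TP.pr p m0 b) := by
    intro p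
    by_cases hp : p ∈ P
    · by_cases hdvd : p * A p ∣ N
      · obtain ⟨hpp, hp4, hAp, hA4, _⟩ := hA p hp
        obtain ⟨k1, hk1⟩ := hdvd
        have hn0 : NeZero (p * A p) := ⟨Nat.mul_ne_zero hpp.ne_zero hAp.ne_zero⟩
        have hk1' : k1 * (p * A p) = N := by rw [hk1]; ring
        obtain ⟨τ, hτ⟩ := Pool.Agent.N198.TP.exists_const hpp hAp (by omega) (by omega) (hA.ne hp)
          (hns p hp) (n := p * A p) rfl (hc.comp_iota hk1')
        refine ⟨τ, fun _ m0 k' _ hm0 hk' y hy => ?_⟩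
        subst hm0
        have hkk : k' = k1 := Nat.eq_of_mul_eq_mul_right (NeZero.pos _) (hk'.trans hk1'.symm)
        subst hkk
        exact hτ y hy
      · refine ⟨0, fun _ m0 k' _ hm0 hk' y hy => ?_⟩
        exact absurd (Dvd.intro_left k' (by rw [hm0]; exact hk')) hdvd
    · exact ⟨0, fun h => absurd h hp⟩
  choose τ hτ using hτ
  have hpp2 : ∀ p ∈ P, p.Prime ∧ p ≠ 2 ∧ p % 4 = 1 := fun p hp =>
    ⟨(hA p hp).1, by have := (hA p hp).2.1; omega, (hA p hp).2.1⟩
  set c' : ZMod N → Q := fun b => c b - ∑ p ∈ P, τ p (Pool.Agent.N198.TP.pr p N b) with hc'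
  have hc'D : OddDist c' := Pool.Agent.N198.TP.oddDist_sub hc
    (Pool.Agent.N198.TP.oddDist_sum P fun p hp =>
      oddDist_map (Pool.Agent.N198.TP.pr_odd (hpp2 p hp).1 (hpp2 p hp).2.1) (τ p))
  have hexp : ∀ (m0 k' : ℕ) [NeZero m0], k' * m0 = N → ∀ y : ZMod m0 → ℤ,
      ∑ b, y b • c' (iota k' b) = ∑ b, y b • c (iota k' b) -
        ∑ p ∈ P, τ p (∑ b, y b • Pool.Agent.N198.TP.pr p m0 b) := by
    intro m0 k' _ hk' y
    rw [← Pool.Agent.N198.TP.sum_smul_sum, ← sum_sub_distrib]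
    refine sum_congr rfl fun b _ => ?_
    rw [hc', smul_sub]
    congr 2
    refine sum_congr rfl fun p hp => ?_
    rw [Pool.Agent.N198.TP.pr_iota (hpp2 p hp).1 hk']
  have hkills : Pool.Agent.N198.TP.Kills P A c' := by
    refine ⟨fun s hs => ?_, fun p hp m0 k' _ hm0 hk' y hy => ?_⟩
    · rw [hc', Multiset.sum_map_sub, hmod s hs, Pool.Agent.N198.TP.sum_map_sum, zero_sub, neg_eq_zero]
      refine sum_eq_zero fun p hp => ?_
      rw [Pool.Agent.N198.TP.pr_modular (hpp2 p hp).1 (hpp2 p hp).2.2 hs, map_zero]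
    · rw [hexp m0 k' hk' y, hτ p hp m0 k' hm0 hk' y hy, sum_eq_single p, sub_self]
      · intro p' hp' hne
        have hnd : ¬ p' ∣ m0 := by
          rw [← hm0]
          intro h
          obtain ⟨h1, h2, h3⟩ := hpp2 p' hp'
          rcases (Nat.Prime.dvd_mul h1).mp h with h4 | h4
          · exact hne ((Nat.prime_dvd_prime_iff_eq h1 (hpp2 p hp).1).mp h4)
          · have h5 := (Nat.prime_dvd_prime_iff_eq h1 (hA p hp).2.2.1).mp h4
            have h6 := (hA p hp).2.2.2.1
            omega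
        rw [Pool.Agent.N198.TP.pr_of_not_dvd hnd]
        simp
      · intro h; exact absurd hp h
  have hκN : κ * L * m = N := by rw [← hN]; ring
  have hκN0 : κ * L * k0 * m0 = N := by rw [mul_assoc, hk, hκN]
  have hzero' : (s.map (fun a => c' (iota (κ * L) a))).sum = 0 := by
    refine CharacterModule.eq_zero_of_character_apply fun φ0 => ?_
    let φ : Q →+ AddCircle (1 : ℚ) := φ0
    change φ _ = 0
    set g : ZMod m → AddCircle (1 : ℚ) := fun a => φ (c' (iota (κ * L) a)) with hg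
    have hgD : OddDist g := oddDist_map (hc'D.comp_iota hκN) φ
    have hge : (fun x : (cyc (nn S)).Pt => g (iota k0 (E (emb x)))) =
        fun x => φ (c' (iota (κ * L * k0) (E (emb x)))) := by
      funext x
      rw [hg]
      beta_reduce
      rw [iota_comp hκN]
    have hgood : ∀ T : Finset (Ix S), T.card = 2 →
        Zr (cyc (nn S)) T (fun x => g (iota k0 (E (emb x)))) := by
      intro T hT
      rw [hge]
      refine zr_of_kills hn' hco hm0 E (c := fun b : ZMod m0 => c' (iota (κ * L * k0) b)) T ?_ φ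
      intro mT lT' _ hmT hlT' x hx
      have hTm : nat' T ∈ S.powersetCard 2 :=
        mem_powersetCard.mpr ⟨nat'_sub T, by rw [nat'_card]; exact hT⟩
      obtain ⟨e, he⟩ := hL _ hTm
      have hprod : ∏ x ∈ nat' T, x = mT := by
        rw [← hmT]; unfold nat'; rw [prod_map]; rfl
      have h1 := hlT _ hTm (κ * e * k0 * lT') N mT hprod (by rw [← hκN0, ← hlT', he]; ring)
        Q c' hc'D hkills x hx
      have h2 : κ * e * k0 * lT' * lT (nat' T) hTm = κ * L * k0 * lT' := by rw [he]; ring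
      rw [h2] at h1
      rw [← h1]
      refine sum_congr rfl fun b _ => ?_
      rw [iota_comp hκN0]
    have h3 : ∀ A ∈ ({{3, 5, 7}, {3, 5}, {5, 7}} : Finset (Finset ℕ)), ThreeSets A := by
      intro A hA
      rw [mem_insert, mem_insert, mem_singleton] at hA
      exact hA
    have hzero : (s.map g).sum = 0 := by
      refine sum_zero_of_fam hSx hm0 hk hred E hs hgD ?_
      intro T he hne hz
      have h2 : T.card ≠ 2 := fun h => hz (hgood T h)
      have h4 : 4 ≤ T.card := by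
        have h5 : 0 < T.card := card_pos.mpr hne
        obtain ⟨r, hr⟩ := he
        omega
      rcases hC with ⟨hC8, hP⟩ | hC3
      · by_cases hT1 : nat' T = {4, 3, 5, 7}
        · exact ex_T1 h8 hS hm0 hk E hP (hcard.trans hC8) hs hSx hred hT1
            (fun A hA U hU => phiO_zr hSx hm0 E (h3 A hA) hU.le)
            (fun A hA => phiO_not_zr hSx hm0 E (h3 A hA) hT1)
        · exact ex_big h8 hS hm0 hk E hP (hcard.trans hC8) he h4 hT1
      · exact ex_three h8 hS hm0 hk E hC3 hcard h4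
    rw [map_multiset_sum, Multiset.map_map]
    exact hzero
  have h5 := hexp m (κ * L) hκN (fun a => ((s.count a : ℕ) : ℤ))
  rw [sum_count, sum_count, hzero'] at h5
  have h6 : ∑ p ∈ P, τ p (∑ b, ((s.count b : ℕ) : ℤ) • Pool.Agent.N198.TP.pr p m b) = 0 := by
    refine sum_eq_zero fun p hp => ?_
    rw [sum_count, hpar p (hPp p hp).1 (hPm p hp) (hPp p hp).2, map_zero]
  rw [h6, sub_zero] at h5
  exact h5.symm

end Pool.Agent.N198.TE
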