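import Pool.Agent.N198.TE.Even

/-!
Rational classes with few entries, all degrees.
-/

set_option linter.unusedSectionVars false

namespace Pool.Agent.N198.TE

open Finset Pool.Agent.H916R2 Pool.Agent.N992 Pool.Agent.N993 Pool.Agent.H916K Pool.Agent.N997.P

/-- Any three different odd prime factors `p ≤ B` of `m` are large with respect to `C`. -/
def ThreeLarge (C B m : ℕ) : Prop :=
  ∀ T : Finset ℕ, T.card = 3 → (∀ p ∈ T, p.Prime ∧ p ≠ 2 ∧ p ∣ m ∧ p ≤ B) →
    8 * C < ∏ p ∈ T, (p - 1)

/-- Rational classes with few entries, all degrees. -/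
theorem main_all (r m : ℕ) (hm : 0 < m) (hL : r ≤ 4 ∨ ThreeLarge (2 * r) (primeBound r m) m)
    (s : Multiset (ZMod m × ℤ)) (hne : s ≠ 0) (heven : Even (Multiset.card s))
    (hcard : Multiset.card s ≤ 2 * r) (h0 : ∀ z ∈ s, z.1 ≠ 0 ∧ z.2 ≠ 0)
    (hsum : (s.map Prod.fst).sum = 0) (hR : RationalClass m s) :
    ∃ l : ℕ, ∃ _ : NeZero (l * m), Generated (l * m) (ModularCharacter (l * m))
        ((s.map Prod.fst).map (fun a => ((l * a.val : ℕ) : ZMod (l * m)))) := by
  have hgm : reducedDegree r m ∣ m := Nat.gcd_dvd_left _ _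
  have hgB : ∀ p, p.Prime → p ∣ reducedDegree r m → p ≤ primeBound r m := fun p hp hpg =>
    Pool.Agent.N198.TP.prime_le_of_dvd_smallDegree hp (hpg.trans (Nat.gcd_dvd_right _ _))
  refine Pool.Agent.N198.TB.main_gen r m hm ?_ s hne heven hcard h0 hsum hR
  intro _ s0 hs0 hs00 hs0c hpar
  have hg0 : reducedDegree r m ≠ 0 := NeZero.ne _
  have h8 : NeZero (8 * reducedDegree r m) := ⟨mul_ne_zero (by norm_num) hg0⟩
  have hp8 : ∀ p, p.Prime → p ∣ 8 * reducedDegree r m → p ≠ 2 → p ∣ reducedDegree r m := by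
    intro p hp hpm hp2
    rcases (Nat.Prime.dvd_mul hp).mp hpm with h1 | h1
    · exfalso
      have h2 : p ∣ 2 ^ 3 := h1
      exact hp2 ((Nat.prime_dvd_prime_iff_eq hp Nat.prime_two).mp (hp.dvd_of_dvd_pow h2))
    · exact h1
  obtain ⟨L, hL0, hkill⟩ := kill_even (m := 8 * reducedDegree r m) (dvd_mul_right 8 _)
    (C := 2 * r) (by
      rcases hL with h | h
      · left
        refine ⟨by omega, fun p hp hpm => ?_⟩
        by_cases hp2 : p = 2
        · omega
        have h1 := hgB p hp (hp8 p hp hpm hp2)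
        have h2 : primeBound r m ≤ 33 := by
          unfold primeBound
          split_ifs <;> omega
        by_contra h3
        have h4 : p = 32 ∨ p = 33 := by omega
        rcases h4 with rfl | rfl <;> revert hp <;> norm_num
      · right
        refine cond3_of_three fun P hc hP => ?_
        refine h P hc fun p hp => ?_
        obtain ⟨h1, h2, h3⟩ := hP p hp
        have h4 := hp8 p h1 h3 h2
        exact ⟨h1, h2, h4.trans hgm, hgB p h1 h4⟩)
  have hN : NeZero (L * 8 * reducedDegree r m) := ⟨mul_ne_zero (mul_ne_zero hL0 (by norm_num)) hg0⟩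
  refine ⟨L * 8, hN, ?_⟩
  refine gen_of_kill (M := L * 8 * reducedDegree r m) (m := reducedDegree r m)
    (g := reducedDegree r m) (q := L * 8) (q' := L * 8) (fun s hs => ⟨hs.1.1, hs.1.2.1⟩)
    (fun s hs => hs.neg) rfl hs0 hs00 s0 (fun R _ c _ => rfl) (fun R _ c hcO hk => ?_)
  have e8 : (8 : ℕ) * reducedDegree r m = 8 * reducedDegree r m := rfl
  have h1 := hkill (s0.map (iota 8 : ZMod (reducedDegree r m) → ZMod (8 * reducedDegree r m)))
    (by rw [Multiset.card_map]; exact hs0c) (hs0.iota rfl).rel (by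
      intro p hp hpm hp4
      rw [Multiset.map_map]
      have h2 := hpar p hp (hp8 p hp hpm (by rintro rfl; omega)) hp4
      rw [← h2]
      congr 1
      refine Multiset.map_congr rfl fun b _ => ?_
      exact Pool.Agent.N198.TP.pr_iota hp rfl b)
    1 (L * 8 * reducedDegree r m) (by ring) R c hcO hk
  rw [Multiset.map_map] at h1
  rw [Multiset.map_map, ← h1]
  congr 1
  refine Multiset.map_congr rfl fun b _ => ?_
  simp only [Function.comp_apply]
  rw [iota_comp (by ring), one_mul]

end Pool.Agent.N198.TE
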